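import Mathlib

/-!
Regular type A and type B sequences, and a verified pruned search for sequences containing two
given integers.
-/

set_option autoImplicit false

namespace Q155.FibSeq

/-- Regular type A sequences: start with `(1,1)`; at each step add, at the left or at the right
end, the sum of a nonempty block of consecutive terms adjacent to the new position. -/
inductive RegA : List ℕ → Prop
  | base : RegA [1, 1]
  | left (b l : List ℕ) : RegA (b ++ l) → b ≠ [] → RegA (b.sum :: (b ++ l))
  | right (l b : List ℕ) : RegA (l ++ b) → b ≠ [] → RegA ((l ++ b) ++ [b.sum])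

/-- Regular type B sequences: start with `(1,1)`; at each step add, at the left or at the right
end, the sum of any nonempty block of consecutive terms. -/
inductive RegB : List ℕ → Prop
  | base : RegB [1, 1]
  | left (l b r : List ℕ) : RegB (l ++ b ++ r) → b ≠ [] → RegB (b.sum :: (l ++ b ++ r))
  | right (l b r : List ℕ) : RegB (l ++ b ++ r) → b ≠ [] → RegB ((l ++ b ++ r) ++ [b.sum])

/-- Some permutation of `ks` is a subsequence of some `n`-term sequence satisfying `P`. -/
def Has (P : List ℕ → Prop) (ks : List ℕ) (n : ℕ) : Prop :=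
  ∃ d : List ℕ, P d ∧ d.length = n ∧ ∃ l : List ℕ, l.Perm ks ∧ l.Sublist d

/-- One step: a new term at the left or at the right end, with value in `vals d`. -/
def Step (vals : List ℕ → List ℕ) (d e : List ℕ) : Prop :=
  ∃ v ∈ vals d, e = v :: d ∨ e = d ++ [v]

/-- Reachability in at most `m` steps. -/
inductive Reach (S : List ℕ → List ℕ → Prop) : ℕ → List ℕ → List ℕ → Prop
  | refl (m : ℕ) (d : List ℕ) : Reach S m d d
  | head (m : ℕ) (d e f : List ℕ) : S d e → Reach S m e f → Reach S (m + 1) d f

theorem Reach.snoc {S : List ℕ → List ℕ → Prop} {m : ℕ} {d e f : List ℕ} (h : Reach S m d e)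
    (h2 : S e f) : Reach S (m + 1) d f := by
  induction h with
  | refl m d => exact Reach.head m d f f h2 (Reach.refl m f)
  | head m d e g hs _ ih => exact Reach.head (m + 1) d e f hs (ih h2)

theorem Reach.mono {S : List ℕ → List ℕ → Prop} {m : ℕ} {d e : List ℕ} (h : Reach S m d e) :
    ∀ {n : ℕ}, m ≤ n → Reach S n d e := by
  induction h with
  | refl m d => intro n _; exact Reach.refl n d
  | head m d e g hs _ ih =>
    intro n hn
    obtain ⟨k, rfl⟩ : ∃ k, n = k + 1 := ⟨n - 1, by omega⟩
    exact Reach.head k d e g hs (ih (by omega))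

/-- Running sums with an accumulator. -/
def psums : ℕ → List ℕ → List ℕ
  | _, [] => []
  | a, x :: l => (a + x) :: psums (a + x) l

/-- Sums of blocks of consecutive terms. -/
def bsums : List ℕ → List ℕ
  | [] => []
  | x :: l => psums 0 (x :: l) ++ bsums l

theorem mem_psums (b l : List ℕ) : ∀ a, b ≠ [] → a + b.sum ∈ psums a (b ++ l) := by
  induction b with
  | nil => intro a h; exact absurd rfl h
  | cons x b ih =>
    intro a _
    rw [List.cons_append, psums]
    by_cases hb : b = []
    · subst hb; simp
    · have h := ih (a + x) hb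
      rw [List.sum_cons, ← add_assoc]
      exact List.mem_cons_of_mem _ h

theorem psums_le (l : List ℕ) : ∀ a, ∀ v ∈ psums a l, v ≤ a + l.sum := by
  induction l with
  | nil => intro a v hv; simp [psums] at hv
  | cons x l ih =>
    intro a v hv
    rw [psums, List.mem_cons] at hv
    rw [List.sum_cons]
    rcases hv with h | h
    · omega
    · have := ih _ v h
      omega

theorem mem_bsums (l b r : List ℕ) (hb : b ≠ []) : b.sum ∈ bsums (l ++ b ++ r) := by
  induction l with
  | nil =>
    obtain ⟨x, c, rfl⟩ := List.exists_cons_of_ne_nil hb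
    rw [List.nil_append, List.cons_append, bsums]
    apply List.mem_append_left
    have h := mem_psums (x :: c) r 0 hb
    rw [zero_add] at h
    exact h
  | cons y l ih =>
    rw [List.cons_append, List.cons_append, bsums]
    exact List.mem_append_right _ ih

theorem bsums_le (l : List ℕ) : ∀ v ∈ bsums l, v ≤ l.sum := by
  induction l with
  | nil => intro v hv; simp [bsums] at hv
  | cons x l ih =>
    intro v hv
    rw [bsums, List.mem_append] at hv
    rcases hv with h | h
    · have := psums_le _ 0 v h
      omega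
    · have := ih v h
      rw [List.sum_cons]
      omega

/-- The possible new terms, type A, left end. -/
def stepA (d e : List ℕ) : Prop :=
  (∃ v ∈ psums 0 d, e = v :: d) ∨ (∃ v ∈ psums 0 d.reverse, e = d ++ [v])

/-- The possible new terms, type B. -/
def stepB (d e : List ℕ) : Prop :=
  (∃ v ∈ bsums d, e = v :: d) ∨ (∃ v ∈ bsums d, e = d ++ [v])

theorem regA_reach {e : List ℕ} (h : RegA e) : 2 ≤ e.length ∧
    Reach stepA (e.length - 2) [1, 1] e := by
  induction h with
  | base => exact ⟨by simp, Reach.refl _ _⟩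
  | left b l _ hb ih =>
    have h1 : (b.sum :: (b ++ l)).length - 2 = ((b ++ l).length - 2) + 1 := by
      simp only [List.length_cons]; omega
    refine ⟨by simp only [List.length_cons]; omega, ?_⟩
    rw [h1]
    apply ih.2.snoc
    left
    refine ⟨b.sum, ?_, rfl⟩
    have h2 := mem_psums b l 0 hb
    rw [zero_add] at h2
    exact h2
  | right l b _ hb ih =>
    have h1 : ((l ++ b) ++ [b.sum]).length - 2 = ((l ++ b).length - 2) + 1 := by
      rw [List.length_append]
      simp only [List.length_singleton]; omega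
    refine ⟨by rw [List.length_append]; omega, ?_⟩
    rw [h1]
    apply ih.2.snoc
    right
    refine ⟨b.sum, ?_, rfl⟩
    have h2 := mem_psums b.reverse l.reverse 0 (by simpa using hb)
    rw [zero_add, List.sum_reverse, ← List.reverse_append] at h2
    exact h2

theorem regB_reach {e : List ℕ} (h : RegB e) : 2 ≤ e.length ∧
    Reach stepB (e.length - 2) [1, 1] e := by
  induction h with
  | base => exact ⟨by simp, Reach.refl _ _⟩
  | left l b r _ hb ih =>
    have h1 : (b.sum :: (l ++ b ++ r)).length - 2 = ((l ++ b ++ r).length - 2) + 1 := by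
      simp only [List.length_cons]; omega
    refine ⟨by simp only [List.length_cons]; omega, ?_⟩
    rw [h1]
    apply ih.2.snoc
    left
    exact ⟨b.sum, mem_bsums l b r hb, rfl⟩
  | right l b r _ hb ih =>
    have h1 : ((l ++ b ++ r) ++ [b.sum]).length - 2 = ((l ++ b ++ r).length - 2) + 1 := by
      rw [List.length_append]
      simp only [List.length_singleton]; omega
    refine ⟨by rw [List.length_append]; omega, ?_⟩
    rw [h1]
    apply ih.2.snoc
    right
    exact ⟨b.sum, mem_bsums l b r hb, rfl⟩

/-- A step relation that adds a term which is at most the sum of the present terms. -/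
def Good (S : List ℕ → List ℕ → Prop) : Prop :=
  ∀ d e, S d e → ∃ v, v ≤ d.sum ∧ (e = v :: d ∨ e = d ++ [v])

theorem goodA : Good stepA := by
  rintro d e (⟨v, hv, rfl⟩ | ⟨v, hv, rfl⟩)
  · refine ⟨v, ?_, Or.inl rfl⟩
    have := psums_le _ 0 v hv
    omega
  · refine ⟨v, ?_, Or.inr rfl⟩
    have := psums_le _ 0 v hv
    rw [List.sum_reverse] at this
    omega

theorem goodB : Good stepB := by
  rintro d e (⟨v, hv, rfl⟩ | ⟨v, hv, rfl⟩)
  · exact ⟨v, bsums_le _ v hv, Or.inl rfl⟩
  · exact ⟨v, bsums_le _ v hv, Or.inr rfl⟩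

theorem step_mem {v k : ℕ} {d e : List ℕ} (h : e = v :: d ∨ e = d ++ [v]) :
    k ∈ e ↔ k = v ∨ k ∈ d := by
  rcases h with rfl | rfl
  · rw [List.mem_cons]
  · rw [List.mem_append, List.mem_singleton, or_comm]

theorem step_sum {v : ℕ} {d e : List ℕ} (h : e = v :: d ∨ e = d ++ [v]) :
    e.sum = v + d.sum := by
  rcases h with rfl | rfl
  · rw [List.sum_cons]
  · rw [List.sum_append, List.sum_singleton, add_comm]

/-- A term that is too large cannot be reached. -/
theorem too_large {S : List ℕ → List ℕ → Prop} (hS : Good S) {m : ℕ} {d e : List ℕ}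
    (h : Reach S m d e) : ∀ k, k ∉ d → d.sum * 2 ^ m < 2 * k → k ∉ e := by
  induction h with
  | refl m d => intro k hk _; exact hk
  | head m d e f hs _ ih =>
    intro k hk hlt
    obtain ⟨v, hv, he⟩ := hS d e hs
    have h1 : d.sum ≤ d.sum * 2 ^ m := Nat.le_mul_of_pos_right _ (by positivity)
    have h2 : d.sum * 2 ^ m < k := by
      rw [pow_succ] at hlt
      have : d.sum * (2 ^ m * 2) = 2 * (d.sum * 2 ^ m) := by ring
      omega
    apply ih k
    · rw [step_mem he]
      rintro (h | h)
      · omega
      · exact hk h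
    · rw [step_sum he]
      calc (v + d.sum) * 2 ^ m ≤ (2 * d.sum) * 2 ^ m := by gcongr; omega
        _ = 2 * (d.sum * 2 ^ m) := by ring
        _ < 2 * k := by omega

/-- Two terms that are too large cannot both be reached. -/
theorem two_large {S : List ℕ → List ℕ → Prop} (hS : Good S) {m : ℕ} {d e : List ℕ}
    (h : Reach S m d e) : ∀ k l, k ≠ l → k ∉ d → l ∉ d → d.sum * 2 ^ m < 4 * k →
      d.sum * 2 ^ m < 4 * l → ¬ (k ∈ e ∧ l ∈ e) := by
  induction h with
  | refl m d => intro k l _ hk _ _ _ h; exact hk h.1
  | head m d e f hs hr ih =>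
    intro k l hkl hk hl hlt hlt'
    obtain ⟨v, hv, he⟩ := hS d e hs
    have h3 : d.sum * 2 ^ (m + 1) = 2 * (d.sum * 2 ^ m) := by rw [pow_succ]; ring
    rw [h3] at hlt hlt'
    have h4 : (v + d.sum) * 2 ^ m ≤ 2 * (d.sum * 2 ^ m) := by
      calc (v + d.sum) * 2 ^ m ≤ (2 * d.sum) * 2 ^ m := by gcongr; omega
        _ = 2 * (d.sum * 2 ^ m) := by ring
    by_cases hkv : k = v
    · rintro ⟨-, h⟩
      refine too_large hS hr l ?_ ?_ h
      · rw [step_mem he]
        rintro (h | h)
        · exact hkl (hkv.trans h.symm)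
        · exact hl h
      · rw [step_sum he]
        rcases m with _ | m
        · -- no more steps
          exfalso
          cases hr with
          | refl =>
            rw [step_mem he] at h
            rcases h with h | h
            · exact hkl (hkv.trans h.symm)
            · exact hl h
        · exfalso
          have : d.sum * 2 ^ (m + 1) = 2 * (d.sum * 2 ^ m) := by rw [pow_succ]; ring
          have h5 : d.sum ≤ d.sum * 2 ^ m := Nat.le_mul_of_pos_right _ (by positivity)
          omega
    · by_cases hlv : l = v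
      · rintro ⟨h, -⟩
        refine too_large hS hr k ?_ ?_ h
        · rw [step_mem he]
          rintro (h | h)
          · exact hkv h
          · exact hk h
        · rw [step_sum he]
          rcases m with _ | m
          · exfalso
            cases hr with
            | refl =>
              rw [step_mem he] at h
              rcases h with h | h
              · exact hkv h
              · exact hk h
          · exfalso
            have : d.sum * 2 ^ (m + 1) = 2 * (d.sum * 2 ^ m) := by rw [pow_succ]; ring
            have h5 : d.sum ≤ d.sum * 2 ^ m := Nat.le_mul_of_pos_right _ (by positivity)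
            omega
      · apply ih k l hkl
        · rw [step_mem he]
          rintro (h | h)
          · exact hkv h
          · exact hk h
        · rw [step_mem he]
          rintro (h | h)
          · exact hlv h
          · exact hl h
        · rw [step_sum he]; omega
        · rw [step_sum he]; omega

/-- The common pruning test: nothing containing both `k` and `l` can be reached from `d` in at
most `m` steps. -/
def prune (k l m : ℕ) (d : List ℕ) : Bool :=
  let s := d.sum * 2 ^ m
  (!(d.elem k) && Nat.blt s (2 * k)) || (!(d.elem l) && Nat.blt s (2 * l)) ||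
    (!(d.elem k) && !(d.elem l) && Nat.blt s (4 * k) && Nat.blt s (4 * l))

theorem prune_sound {S : List ℕ → List ℕ → Prop} (hS : Good S) {k l m : ℕ} {d e : List ℕ}
    (hkl : k ≠ l) (hp : prune k l m d = true) (h : Reach S m d e) : ¬ (k ∈ e ∧ l ∈ e) := by
  simp only [prune, Bool.or_eq_true, Bool.and_eq_true, Bool.not_eq_true', List.elem_eq_mem,
    decide_eq_false_iff_not, Nat.blt_eq] at hp
  rcases hp with (⟨h1, h2⟩ | ⟨h1, h2⟩) | ⟨⟨⟨h1, h2⟩, h3⟩, h4⟩
  · exact fun hh => too_large hS h k h1 h2 hh.1
  · exact fun hh => too_large hS h l h1 h2 hh.2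
  · exact two_large hS h k l hkl h1 h2 h3 h4

/-- Verified search, type A. -/
def chkA (k l : ℕ) : ℕ → List ℕ → Bool
  | 0, d => !(d.elem k && d.elem l)
  | m + 1, d => !(d.elem k && d.elem l) && (prune k l (m + 1) d ||
      ((psums 0 d).all (fun v => chkA k l m (v :: d)) &&
        (psums 0 d.reverse).all (fun v => chkA k l m (d ++ [v]))))

/-- Verified search, type B. -/
def chkB (k l : ℕ) : ℕ → List ℕ → Bool
  | 0, d => !(d.elem k && d.elem l)
  | m + 1, d => !(d.elem k && d.elem l) && (prune k l (m + 1) d ||
      ((bsums d).all (fun v => chkB k l m (v :: d) && chkB k l m (d ++ [v]))))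

theorem not_both {k l : ℕ} {d : List ℕ} (h : (!(d.elem k && d.elem l)) = true) :
    ¬ (k ∈ d ∧ l ∈ d) := by
  rintro ⟨h1, h2⟩
  simp [h1, h2] at h

theorem chkA_sound {k l : ℕ} (hkl : k ≠ l) : ∀ (m : ℕ) (d e : List ℕ), chkA k l m d = true →
    Reach stepA m d e → ¬ (k ∈ e ∧ l ∈ e) := by
  intro m
  induction m with
  | zero =>
    intro d e hc hr
    cases hr with
    | refl => exact not_both hc
  | succ m ih =>
    intro d e hc hr
    rw [chkA, Bool.and_eq_true, Bool.or_eq_true, Bool.and_eq_true] at hc
    obtain ⟨hc1, hc2⟩ := hc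
    rcases hc2 with hc2 | ⟨hc2, hc3⟩
    · exact prune_sound goodA hkl hc2 hr
    · cases hr with
      | refl => exact not_both hc1
      | head m d f e hs hr =>
        rcases hs with ⟨v, hv, rfl⟩ | ⟨v, hv, rfl⟩
        · exact ih _ _ (List.all_eq_true.1 hc2 v hv) hr
        · exact ih _ _ (List.all_eq_true.1 hc3 v hv) hr

theorem chkB_sound {k l : ℕ} (hkl : k ≠ l) : ∀ (m : ℕ) (d e : List ℕ), chkB k l m d = true →
    Reach stepB m d e → ¬ (k ∈ e ∧ l ∈ e) := by
  intro m
  induction m with
  | zero =>
    intro d e hc hr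
    cases hr with
    | refl => exact not_both hc
  | succ m ih =>
    intro d e hc hr
    rw [chkB, Bool.and_eq_true, Bool.or_eq_true] at hc
    obtain ⟨hc1, hc2⟩ := hc
    rcases hc2 with hc2 | hc2
    · exact prune_sound goodB hkl hc2 hr
    · cases hr with
      | refl => exact not_both hc1
      | head m d f e hs hr =>
        rcases hs with ⟨v, hv, rfl⟩ | ⟨v, hv, rfl⟩
        · have := List.all_eq_true.1 hc2 v hv
          rw [Bool.and_eq_true] at this
          exact ih _ _ this.1 hr
        · have := List.all_eq_true.1 hc2 v hv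
          rw [Bool.and_eq_true] at this
          exact ih _ _ this.2 hr

theorem has_pair {P : List ℕ → Prop} {k l n : ℕ} (h : Has P [k, l] n) :
    ∃ d, P d ∧ d.length = n ∧ k ∈ d ∧ l ∈ d := by
  obtain ⟨d, hd, hn, e, he, hs⟩ := h
  exact ⟨d, hd, hn, hs.subset (he.mem_iff.2 (by simp)), hs.subset (he.mem_iff.2 (by simp))⟩

theorem has_single {P : List ℕ → Prop} {k n : ℕ} (h : Has P [k] n) :
    ∃ d, P d ∧ d.length = n ∧ k ∈ d := by
  obtain ⟨d, hd, hn, e, he, hs⟩ := h
  exact ⟨d, hd, hn, hs.subset (he.mem_iff.2 (by simp))⟩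

theorem lowerA {k l m n : ℕ} (hkl : k ≠ l) (hc : chkA k l m [1, 1] = true)
    (h : Has RegA [k, l] n) : m + 3 ≤ n := by
  obtain ⟨d, hd, hn, hk, hl⟩ := has_pair h
  obtain ⟨h2, hr⟩ := regA_reach hd
  by_contra hcon
  exact chkA_sound hkl m _ _ hc (hr.mono (by omega)) ⟨hk, hl⟩

theorem lowerB {k l m n : ℕ} (hkl : k ≠ l) (hc : chkB k l m [1, 1] = true)
    (h : Has RegB [k, l] n) : m + 3 ≤ n := by
  obtain ⟨d, hd, hn, hk, hl⟩ := has_pair h
  obtain ⟨h2, hr⟩ := regB_reach hd
  by_contra hcon
  exact chkB_sound hkl m _ _ hc (hr.mono (by omega)) ⟨hk, hl⟩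

theorem lower_singleA {k m n : ℕ} (hk1 : k ≠ 1) (hlt : 2 * 2 ^ m < 2 * k)
    (h : Has RegA [k] n) : m + 3 ≤ n := by
  obtain ⟨d, hd, hn, hk⟩ := has_single h
  obtain ⟨h2, hr⟩ := regA_reach hd
  by_contra hcon
  exact too_large goodA (hr.mono (show d.length - 2 ≤ m by omega)) k (by simpa using hk1)
    (by simpa using hlt) hk

theorem lower_singleB {k m n : ℕ} (hk1 : k ≠ 1) (hlt : 2 * 2 ^ m < 2 * k)
    (h : Has RegB [k] n) : m + 3 ≤ n := by
  obtain ⟨d, hd, hn, hk⟩ := has_single h
  obtain ⟨h2, hr⟩ := regB_reach hd
  by_contra hcon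
  exact too_large goodB (hr.mono (show d.length - 2 ≤ m by omega)) k (by simpa using hk1)
    (by simpa using hlt) hk

end Q155.FibSeq
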